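import Pool.Agent.Helper36.HS.St
import Pool.Agent.Helper76.HK.EXG
import Pool.Agent.Helper73.HM.Base

/-! # HS module RC: definable choice of cofinal functions of HOD -/

set_option autoImplicit false

namespace Pool.Agent.Helper12.HS

open Ordinal Cardinal ZFSet Order Pool.Agent.Helper73.HODC Pool.Agent.Helper73.HE
  Pool.Agent.Helper73.HM Pool.Agent.Helper73.HU Pool.Agent.Helper73.HV Pool.Agent.Helper36.HS

/-! ### definability -/

/-- the infimum of a definable set -/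
theorem dp_sInfV {S : (ℕ → ZFSet.{0}) → Set Ordinal.{0}}
    (h : DP (fun v => (v 0).rank ∈ S (fun n => v (n + 1)))) (j : ℕ) :
    DP (fun v => sInf (S v) = (v j).rank) := by
  have h1 : DP (fun v => (v j).rank ∈ S v) :=
    h.rename (fun n => match n with | 0 => j | n + 1 => n)
  refine ((h1.and (DP.allO (Q := fun d v => d ∈ S v → (v j).rank ≤ d)
    (h.imp (DP.rank_le (j + 1) 0)))).or ((DP.allO (Q := fun d v => ¬ d ∈ S v)
    h.not).and (DP.of (dfn_rank_zero j)))).congr fun v => ?_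
  exact sInf_eq_iff _ _

theorem st_bdd (x : ZFSet.{0}) (a : Ordinal.{0}) (ha : a ∈ st x) : a < x.rank := by
  obtain ⟨z, hz, rfl⟩ := ha
  exact rank_lt_of_mem hz

theorem otp_iff (x : ZFSet.{0}) (γ : Ordinal.{0}) :
    OtpLt (st x) (γ + 1) ↔ ∃ ζ : Ordinal.{0}, ζ ≤ γ ∧ ∃ z : ZFSet.{0},
      (∀ a, a ∈ st x → ∃ c, fn z a = c ∧ c < ζ) ∧
      ∀ a, ∀ b, (a ∈ st x ∧ b ∈ st x ∧ a < b) → ∃ c, ∃ d, fn z a = c ∧ fn z b = d ∧ c < d := by
  constructor
  · rintro ⟨ζ, hζ, g, h1, h2⟩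
    obtain ⟨z, hz, -⟩ := exists_fn g x.rank
    refine ⟨ζ, Order.lt_add_one_iff.1 hζ, z, fun a ha => ⟨_, rfl, ?_⟩, ?_⟩
    · rw [hz a (st_bdd x a ha)]; exact h1 a ha
    · rintro a b ⟨ha, hb, hab⟩
      refine ⟨_, _, rfl, rfl, ?_⟩
      rw [hz a (st_bdd x a ha), hz b (st_bdd x b hb)]
      exact h2 a ha b hb hab
  · rintro ⟨ζ, hζ, z, h1, h2⟩
    refine ⟨ζ, Order.lt_add_one_iff.2 hζ, fn z, fun a ha => ?_, fun a ha b hb hab => ?_⟩
    · obtain ⟨c, hc, hc'⟩ := h1 a ha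
      rw [hc]; exact hc'
    · obtain ⟨c, d, hc, hd, hcd⟩ := h2 a b ⟨ha, hb, hab⟩
      rw [hc, hd]; exact hcd

theorem dp_otp (i l : ℕ) : DP (fun v => OtpLt (st (v i)) ((v l).rank + 1)) := by
  refine DP.congr (Q := fun v => ∃ ζ : Ordinal.{0}, ζ ≤ (v l).rank ∧ ∃ z : ZFSet.{0},
      (∀ a, a ∈ st (v i) → ∃ c, fn z a = c ∧ c < ζ) ∧
      ∀ a, ∀ b, (a ∈ st (v i) ∧ b ∈ st (v i) ∧ a < b) →
        ∃ c, ∃ d, fn z a = c ∧ fn z b = d ∧ c < d) ?_ (fun v => otp_iff (v i) (v l).rank)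
  refine DP.exO (Q := fun ζ v => ζ ≤ (v l).rank ∧ ∃ z : ZFSet.{0},
      (∀ a, a ∈ st (v i) → ∃ c, fn z a = c ∧ c < ζ) ∧
      ∀ a, ∀ b, (a ∈ st (v i) ∧ b ∈ st (v i) ∧ a < b) →
        ∃ c, ∃ d, fn z a = c ∧ fn z b = d ∧ c < d) ?_
  refine (DP.rank_le 0 (l + 1)).and ?_
  refine DP.ex (Q := fun z v => (∀ a, a ∈ st (v (i + 1)) → ∃ c, fn z a = c ∧ c < (v 0).rank) ∧
      ∀ a, ∀ b, (a ∈ st (v (i + 1)) ∧ b ∈ st (v (i + 1)) ∧ a < b) →
        ∃ c, ∃ d, fn z a = c ∧ fn z b = d ∧ c < d) ?_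
  refine DP.and ?_ ?_
  · refine DP.allO (Q := fun a v => a ∈ st (v (i + 2)) → ∃ c, fn (v 0) a = c ∧ c < (v 1).rank) ?_
    refine (DP.st 0 (i + 3)).imp ?_
    refine DP.exO (Q := fun c v => fn (v 1) (v 0).rank = c ∧ c < (v 2).rank) ?_
    exact (DP.fn 2 1 0).and (DP.rank_lt 0 3)
  · refine DP.allO (Q := fun a v => ∀ b, (a ∈ st (v (i + 2)) ∧ b ∈ st (v (i + 2)) ∧ a < b) →
        ∃ c, ∃ d, fn (v 0) a = c ∧ fn (v 0) b = d ∧ c < d) ?_
    refine DP.allO (Q := fun b v => ((v 0).rank ∈ st (v (i + 3)) ∧ b ∈ st (v (i + 3)) ∧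
        (v 0).rank < b) → ∃ c, ∃ d, fn (v 1) (v 0).rank = c ∧ fn (v 1) b = d ∧ c < d) ?_
    refine ((DP.st 1 (i + 4)).and ((DP.st 0 (i + 4)).and (DP.rank_lt 1 0))).imp ?_
    refine DP.exO (Q := fun c v => ∃ d, fn (v 2) (v 1).rank = c ∧ fn (v 2) (v 0).rank = d ∧
      c < d) ?_
    refine DP.exO (Q := fun d v => fn (v 3) (v 2).rank = (v 0).rank ∧
      fn (v 3) (v 1).rank = d ∧ (v 0).rank < d) ?_
    exact (DP.fn 4 3 1).and ((DP.fn 4 2 0).and (DP.rank_lt 1 0))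

theorem dp_sc (l i j : ℕ) : DP (fun v => SmallCof ((v l).rank + 1) (v i).rank (v j)) := by
  refine DP.and ?_ ((DP.of (dn_dfn_unbIn j i)).and (dp_otp j l))
  refine DP.allO (Q := fun b v => b ∈ st (v j) → b < (v i).rank) ?_
  exact (DP.st 0 (j + 1)).imp (DP.rank_lt 0 (i + 1))

theorem dp_en (k i j : ℕ) : DP (fun v => Enum (st (v k)) (v i).rank (v j).rank) := by
  refine DP.congr ?_ (fun v => enum_iff_code (st (v k)) (v i).rank (v j).rank)
  refine (DP.st j k).and ?_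
  refine DP.ex (Q := fun G v =>
      (∀ x : Ordinal.{0}, x < (v i).rank → ∃ y : Ordinal.{0}, fn G x = y ∧
        y ∈ st (v k) ∧ y < (v j).rank) ∧
      (∀ x : Ordinal.{0}, ∀ y : Ordinal.{0}, x < (v i).rank → y < (v i).rank → x < y →
        ∃ s : Ordinal.{0}, ∃ t : Ordinal.{0}, fn G x = s ∧ fn G y = t ∧ s < t) ∧
      (∀ z : Ordinal.{0}, z ∈ st (v k) → z < (v j).rank → ∃ x : Ordinal.{0}, x < (v i).rank ∧
        fn G x = z)) ?_
  refine DP.and ?_ (DP.and ?_ ?_)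
  · refine DP.allO (Q := fun x v => x < (v (i + 1)).rank → ∃ y : Ordinal.{0},
      fn (v 0) x = y ∧ y ∈ st (v (k + 1)) ∧ y < (v (j + 1)).rank) ?_
    refine (DP.rank_lt 0 (i + 2)).imp ?_
    refine DP.exO (Q := fun y v => fn (v 1) (v 0).rank = y ∧ y ∈ st (v (k + 2)) ∧
      y < (v (j + 2)).rank) ?_
    exact (DP.fn 2 1 0).and ((DP.st 0 (k + 3)).and (DP.rank_lt 0 (j + 3)))
  · refine DP.allO (Q := fun x v => ∀ y : Ordinal.{0}, x < (v (i + 1)).rank →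
        y < (v (i + 1)).rank → x < y →
        ∃ s : Ordinal.{0}, ∃ t : Ordinal.{0}, fn (v 0) x = s ∧ fn (v 0) y = t ∧
        s < t) ?_
    refine DP.allO (Q := fun y v => (v 0).rank < (v (i + 2)).rank → y < (v (i + 2)).rank →
        (v 0).rank < y →
        ∃ s : Ordinal.{0}, ∃ t : Ordinal.{0}, fn (v 1) (v 0).rank = s ∧
        fn (v 1) y = t ∧ s < t) ?_
    refine (DP.rank_lt 1 (i + 3)).imp ((DP.rank_lt 0 (i + 3)).imp ((DP.rank_lt 1 0).imp ?_))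
    refine DP.exO (Q := fun s v => ∃ t : Ordinal.{0}, fn (v 2) (v 1).rank = s ∧
        fn (v 2) (v 0).rank = t ∧ s < t) ?_
    refine DP.exO (Q := fun t v => fn (v 3) (v 2).rank = (v 0).rank ∧
        fn (v 3) (v 1).rank = t ∧ (v 0).rank < t) ?_
    exact (DP.fn 4 3 1).and ((DP.fn 4 2 0).and (DP.rank_lt 1 0))
  · refine DP.allO (Q := fun z v => z ∈ st (v (k + 1)) → z < (v (j + 1)).rank →
      ∃ x : Ordinal.{0}, x < (v (i + 1)).rank ∧ fn (v 0) x = z) ?_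
    refine (DP.st 0 (k + 2)).imp ((DP.rank_lt 0 (j + 2)).imp ?_)
    refine DP.exO (Q := fun x v => x < (v (i + 2)).rank ∧ fn (v 1) x = (v 0).rank) ?_
    exact (DP.rank_lt 0 (i + 3)).and (DP.fn 2 0 1)

/-- the cofinality in HOD -/
noncomputable def rho (δ η : Ordinal.{0}) : Ordinal.{0} :=
  sInf {γ | ∃ x, LeastOD δ (SmallCof (γ + 1) η) x}

/-- the cofinal function -/
noncomputable def cfn (δ η i : Ordinal.{0}) : Ordinal.{0} :=
  sInf {b | ∃ x, LeastOD δ (SmallCof (rho δ η + 1) η) x ∧ Enum (st x) i b}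

theorem dp_rho (h2 : StLD) (δ : Ordinal.{0}) (i j : ℕ) :
    DP (fun v => rho δ (v i).rank = (v j).rank) := by
  refine dp_sInfV (S := fun v => {γ | ∃ x, LeastOD δ (SmallCof (γ + 1) (v i).rank) x}) ?_ j
  refine DP.ex (Q := fun x v => LeastOD δ (SmallCof ((v 0).rank + 1) (v (i + 1)).rank) x) ?_
  exact h2 δ (fun x v => SmallCof ((v 1).rank + 1) (v (i + 2)).rank x) (dp_sc 2 (i + 3) 0) 0

theorem dp_cfn (h2 : StLD) (δ : Ordinal.{0}) (i j k : ℕ) :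
    DP (fun v => cfn δ (v i).rank (v j).rank = (v k).rank) := by
  refine dp_sInfV (S := fun v => {b | ∃ x, LeastOD δ (SmallCof (rho δ (v i).rank + 1)
    (v i).rank) x ∧ Enum (st x) (v j).rank b}) ?_ k
  refine DP.ex (Q := fun x v => LeastOD δ (SmallCof (rho δ (v (i + 1)).rank + 1)
    (v (i + 1)).rank) x ∧ Enum (st x) (v (j + 1)).rank (v 0).rank) ?_
  refine DP.and ?_ (dp_en 0 (j + 2) 1)
  refine h2 δ (fun x v => SmallCof (rho δ (v (i + 2)).rank + 1) (v (i + 2)).rank x) ?_ 0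
  refine (DP.exO (Q := fun γ v => rho δ (v (i + 3)).rank = γ ∧
    SmallCof (γ + 1) (v (i + 3)).rank (v 0))
    ((dp_rho h2 δ (i + 4) 0).and (dp_sc 0 (i + 4) 1))).congr fun v => ?_
  constructor
  · intro h
    exact ⟨_, rfl, h⟩
  · rintro ⟨γ, rfl, h⟩
    exact h

/-! ### enumerations -/

theorem enum_lt {Γ : Set Ordinal.{0}} {x x' b b' : Ordinal.{0}} (h : Enum Γ x b)
    (h' : Enum Γ x' b') (hx : x < x') : b < b' := by
  obtain ⟨-, g, h1, h2, h3⟩ := h'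
  rw [enum_unique h (enum_restrict h1 h2 h3 hx)]
  exact (h1 x hx).2

/-- if the order type of `Γ` is not less than `γ`, in a weak sense, then all indices below `γ`
occur -/
theorem exists_enum {Γ : Set Ordinal.{0}} {γ : Ordinal.{0}}
    (h : ∀ i < γ, ¬ OtpLt Γ (i + 1)) : ∀ i < γ, ∃ b, Enum Γ i b := by
  intro i
  induction i using WellFoundedLT.induction with
  | ind i ih =>
    intro hi
    by_contra hno
    have he : ∀ x, ∃ b, x < i → Enum Γ x b := by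
      intro x
      by_cases hx : x < i
      · obtain ⟨b, hb⟩ := ih x hx (hx.trans hi)
        exact ⟨b, fun _ => hb⟩
      · exact ⟨0, fun h => absurd h hx⟩
    choose e he using he
    have h1 : ∀ b ∈ Γ, ∃ y < i, Enum Γ y b := by
      intro b hb
      have h2 : ¬ ∀ x < i, e x < b := by
        intro h3
        obtain ⟨b', -, hb'⟩ := enum_step (a := i) (b := b) (g := e) he hb h3
        exact hno ⟨b', hb'⟩
      push Not at h2
      obtain ⟨x, hx, hbx⟩ := h2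
      rcases lt_or_eq_of_le hbx with h3 | h3
      · obtain ⟨-, g, k1, k2, k3⟩ := he x hx
        obtain ⟨y, hy, hyb⟩ := k3 b hb h3
        exact ⟨y, hy.trans hx, hyb ▸ enum_restrict k1 k2 k3 hy⟩
      · exact ⟨x, hx, h3 ▸ he x hx⟩
    refine h i hi ⟨i, Order.lt_add_one_iff.2 le_rfl, fun b => sInf {y | y < i ∧ Enum Γ y b},
      ?_, ?_⟩
    · intro b hb
      obtain ⟨y, hy, hyb⟩ := h1 b hb
      exact (csInf_mem (s := {y | y < i ∧ Enum Γ y b}) ⟨y, hy, hyb⟩).1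
    · intro a ha b hb hab
      obtain ⟨y, hy, hya⟩ := h1 a ha
      obtain ⟨y', hy', hyb⟩ := h1 b hb
      obtain ⟨-, h3⟩ := csInf_mem (s := {y | y < i ∧ Enum Γ y a}) ⟨y, hy, hya⟩
      obtain ⟨-, h4⟩ := csInf_mem (s := {y | y < i ∧ Enum Γ y b}) ⟨y', hy', hyb⟩
      rcases lt_trichotomy (sInf {y | y < i ∧ Enum Γ y a}) (sInf {y | y < i ∧ Enum Γ y b})
        with h5 | h5 | h5
      · exact h5
      · rw [h5] at h3
        exact absurd (enum_unique h3 h4) (ne_of_lt hab)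
      · exact absurd (enum_lt h4 h3 h5) (not_lt.2 hab.le)

/-! ### the properties of `rho` and `cfn` -/

theorem main_aux (h1 : StLE) {δ η : Ordinal.{0}} (hη : IsSuccLimit η) (hηδ : η < δ) :
    rho δ η ≤ η ∧ (∀ γ < rho δ η, ¬ ∃ x, OD x ∧ x ⊆ δ.toZFSet ∧ SmallCof (γ + 1) η x) ∧
    ∃ x, OD x ∧ x ⊆ δ.toZFSet ∧ SmallCof (rho δ η + 1) η x ∧
      ∀ i < rho δ η, Enum (st x) i (cfn δ η i) := by
  obtain ⟨γ₀, hγ₀, -, -, hex⟩ := Helper76.HK.exg η hη
  have hne : γ₀ ∈ {γ | ∃ x, LeastOD δ (SmallCof (γ + 1) η) x} :=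
    h1.2 δ _ (hex (γ₀ + 1) δ hηδ (Order.lt_add_one_iff.2 le_rfl))
  have hmin : ∀ γ < rho δ η, ¬ ∃ x, OD x ∧ x ⊆ δ.toZFSet ∧ SmallCof (γ + 1) η x := by
    intro γ hγ hx
    have h2 : γ ∈ {γ | ∃ x, LeastOD δ (SmallCof (γ + 1) η) x} := h1.2 δ _ hx
    exact absurd (csInf_le' h2) (not_le.2 hγ)
  refine ⟨(csInf_le' hne).trans hγ₀, hmin, ?_⟩
  obtain ⟨x, hx⟩ := csInf_mem (s := {γ | ∃ x, LeastOD δ (SmallCof (γ + 1) η) x}) ⟨γ₀, hne⟩
  have hx : LeastOD δ (SmallCof (rho δ η + 1) η) x := hx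
  obtain ⟨⟨hx1, hx2, hx3⟩, -⟩ := id hx
  refine ⟨x, hx1, hx2, hx3, fun i hi => ?_⟩
  have hen := exists_enum (Γ := st x) (γ := rho δ η) (fun i hi ho =>
    hmin i hi ⟨x, hx1, hx2, hx3.1, hx3.2.1, ho⟩) i hi
  obtain ⟨b, hb⟩ := hen
  obtain ⟨x', hx', h3⟩ := csInf_mem (s := {b | ∃ x, LeastOD δ (SmallCof (rho δ η + 1) η) x ∧
    Enum (st x) i b}) ⟨b, x, hx, hb⟩
  rw [h1.1 _ _ x' x hx' hx] at h3
  exact h3

theorem rc (_ : StHP) (h1 : StLE) (h2 : StLD) : Helper36.HS.StRC := by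
  intro δ
  have hlt : ∀ η < δ, IsSuccLimit η → ∀ x < rho δ η, cfn δ η x < η := by
    intro η hηδ hη x hx
    obtain ⟨-, -, z, -, -, h3, h4⟩ := main_aux h1 hη hηδ
    exact h3.1 _ (h4 x hx).1
  have hmono : ∀ η < δ, IsSuccLimit η → ∀ x y, x < y → y < rho δ η →
      cfn δ η x < cfn δ η y := by
    intro η hηδ hη x y hxy hy
    obtain ⟨-, -, z, -, -, h3, h4⟩ := main_aux h1 hη hηδ
    exact enum_lt (h4 x (hxy.trans hy)) (h4 y hy) hxy
  have hunb : ∀ η < δ, IsSuccLimit η → ∀ ξ < η, ∃ x < rho δ η, ξ < cfn δ η x := by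
    intro η hηδ hη ξ hξ
    obtain ⟨-, -, z, -, -, h3, h4⟩ := main_aux h1 hη hηδ
    obtain ⟨b, hb, hξb, hbη⟩ := h3.2.1 ξ hξ
    by_contra hcon
    push Not at hcon
    obtain ⟨ζ, hζ, g, hg1, hg2⟩ := h3.2.2
    have h5 : ∀ i < rho δ η, i ≤ g (cfn δ η i) := by
      intro i
      induction i using WellFoundedLT.induction with
      | ind i ih =>
        intro hi
        by_contra hlt'
        have h6 := not_le.1 hlt'
        have h7 := ih _ h6 (h6.trans hi)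
        have h8 := hg2 _ (h4 _ (h6.trans hi)).1 _ (h4 i hi).1
          (enum_lt (h4 _ (h6.trans hi)) (h4 i hi) h6)
        exact absurd h7 (not_le.2 h8)
    have h6 : g b < rho δ η := (hg1 b hb).trans_le (Order.lt_add_one_iff.1 hζ)
    have h7 := h5 _ h6
    have h8 := hg2 _ (h4 _ h6).1 b hb ((hcon _ h6).trans_lt hξb)
    exact absurd h7 (not_le.2 h8)
  have hlim : ∀ η < δ, IsSuccLimit η → IsSuccLimit (rho δ η) := by
    intro η hηδ hη
    have hη0 : 0 < η := pos_iff_ne_zero.2 (Ordinal.isSuccLimit_iff.1 hη).1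
    rw [Ordinal.isSuccLimit_iff, isSuccPrelimit_iff_succ_lt]
    constructor
    · intro h0
      obtain ⟨x, hx, -⟩ := hunb η hηδ hη 0 hη0
      rw [h0] at hx
      exact not_lt_zero hx
    · intro i hi
      obtain ⟨x, hx, hix⟩ := hunb η hηδ hη _ (hlt η hηδ hη i hi)
      have h3 : i < x := by
        by_contra hcon
        rcases lt_or_eq_of_le (not_lt.1 hcon) with h4 | h4
        · exact absurd (hmono η hηδ hη x i h4 hi) (not_lt.2 hix.le)
        · rw [h4] at hix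
          exact lt_irrefl _ hix
      exact (succ_le_of_lt h3).trans_lt hx
  have hcof : ∀ η < δ, IsSuccLimit η → (rho δ η).cof = η.cof := by
    intro η hηδ hη
    refine (Helper86.HU.EX.cof_eq_of_map (F := cfn δ η) (hlt η hηδ hη) ?_ ?_ ?_).symm
    · intro ξ ξ' h3 h4
      rcases lt_or_eq_of_le h3 with h5 | h5
      · exact (hmono η hηδ hη ξ ξ' h5 h4).le
      · rw [h5]
    · intro β hβ
      obtain ⟨x, hx, hx'⟩ := hunb η hηδ hη β hβ
      exact ⟨x, hx, hx'.le⟩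
    · intro ζ hζ
      exact ⟨cfn δ η ζ, hlt η hηδ hη ζ hζ, fun ξ hξ => hmono η hηδ hη ξ ζ hξ hζ⟩
  have hreg : ∀ η < δ, IsSuccLimit η → HODReg (rho δ η) := by
    intro η hηδ hη
    obtain ⟨hle, hmin, -⟩ := main_aux h1 hη hηδ
    obtain ⟨γ₁, hγ₁, hreg, -, hex⟩ := Helper76.HK.exg (rho δ η) (hlim η hηδ hη)
    rcases lt_or_eq_of_le hγ₁ with h3 | h3
    · exfalso
      obtain ⟨y, hy1, hy2, hy3, hy4, hy5⟩ := hex (γ₁ + 1) δ (hle.trans_lt hηδ)
        (Order.lt_add_one_iff.2 le_rfl)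
      have hdy : DPs (st y) := dps_ordSet hy2 hy1
      have hdc : DP (fun v => cfn δ η (v 0).rank = (v 1).rank) :=
        dp_subst_at (Q := fun a v => cfn δ a (v 0).rank = (v 1).rank) (dp_cfn h2 δ 0 1 2) η
      have hdR : DPs {b | ∃ i, i ∈ st y ∧ cfn δ η i = b} :=
        DP.exO (Q := fun i v => i ∈ st y ∧ cfn δ η i = (v 0).rank) ((hdy.at 0).and hdc)
      refine hmin γ₁ h3 ⟨ordSet δ {b | ∃ i, i ∈ st y ∧ cfn δ η i = b}, od_ordSet hdR δ,
        ordSet_sub _ _, ?_, ?_, ?_⟩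
      · intro b hb
        obtain ⟨-, i, hi, rfl⟩ := mem_st_ordSet.1 hb
        exact hlt η hηδ hη i (hy3 i hi)
      · intro β hβ
        obtain ⟨x, hx, hx'⟩ := hunb η hηδ hη β hβ
        obtain ⟨i, hi, hxi, hi'⟩ := hy4 x hx
        have h4 := hlt η hηδ hη i hi'
        exact ⟨cfn δ η i, mem_st_ordSet.2 ⟨h4.trans hηδ, i, hi, rfl⟩,
          hx'.trans (hmono η hηδ hη x i hxi hi'), h4⟩
      · obtain ⟨ζ, hζ, g, hg1, hg2⟩ := hy5
        have hinj : ∀ i ∈ st y, ∀ j ∈ st y, cfn δ η i < cfn δ η j → i < j := by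
          intro i hi j hj hij
          by_contra hcon
          rcases lt_or_eq_of_le (not_lt.1 hcon) with h4 | h4
          · exact absurd (hmono η hηδ hη j i h4 (hy3 i hi)) (not_lt.2 hij.le)
          · rw [h4] at hij
            exact lt_irrefl _ hij
        refine ⟨ζ, hζ, fun b => g (sInf {i | i ∈ st y ∧ cfn δ η i = b}), ?_, ?_⟩
        · intro b hb
          obtain ⟨-, i, hi, hib⟩ := mem_st_ordSet.1 hb
          obtain ⟨h4, -⟩ := csInf_mem (s := {i | i ∈ st y ∧ cfn δ η i = b}) ⟨i, hi, hib⟩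
          exact hg1 _ h4
        · intro b hb b' hb' hbb
          obtain ⟨-, i, hi, hib⟩ := mem_st_ordSet.1 hb
          obtain ⟨-, i', hi', hib'⟩ := mem_st_ordSet.1 hb'
          obtain ⟨h4, h5⟩ := csInf_mem (s := {i | i ∈ st y ∧ cfn δ η i = b}) ⟨i, hi, hib⟩
          obtain ⟨h4', h5'⟩ := csInf_mem (s := {i | i ∈ st y ∧ cfn δ η i = b'})
            ⟨i', hi', hib'⟩
          refine hg2 _ h4 _ h4' (hinj _ h4 _ h4' ?_)
          rw [h5, h5']
          exact hbb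
    · rw [← h3]
      exact hreg
  exact ⟨rho δ, cfn δ, dp_rho h2 δ 0 1, dp_cfn h2 δ 0 1 2, hreg,
    fun η hηδ hη => (main_aux h1 hη hηδ).1, hcof, hlt, hmono, hunb⟩

end Pool.Agent.Helper12.HS
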